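import Pool.Agent.Helper49.TP.StM

/-!
# Project TP (MP_953b28_co), module DUA: duality for a box
-/

set_option autoImplicit false

namespace Pool.Agent.Helper14.TP

open Finset Pool.Agent.Helper49.TP Pool.Agent.Helper93.IA Pool.Agent.Helper38.IA

theorem hDUA : StDUA := by
  intro E T _ _ _ M f L hL h
  classical
  let Φ : (T → ℝ) →ₗ[ℝ] (E → ℝ) :=
    { toFun := fun y e => ∑ t, y t * M t e
      map_add' := fun y y' => by
        funext e
        simp only [Pi.add_apply, add_mul, Finset.sum_add_distrib]
      map_smul' := fun c y => by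
        funext e
        simp only [Pi.smul_apply, smul_eq_mul, RingHom.id_apply, Finset.mul_sum, mul_assoc] }
  have hΦ : ∀ y e, Φ y e = ∑ t, y t * M t e := fun _ _ => rfl
  have hcont : Continuous Φ := LinearMap.continuous_of_finiteDimensional Φ
  let B : Set (T → ℝ) := Set.pi Set.univ (fun _ => Set.Icc (-L) L)
  have hBc : IsCompact B := isCompact_univ_pi fun _ => isCompact_Icc
  have hBv : Convex ℝ B := convex_pi fun _ _ => convex_Icc _ _
  have hKc : IsClosed (Φ '' B) := (hBc.image hcont).isClosed
  have hKv : Convex ℝ (Φ '' B) := hBv.linear_image Φ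
  by_cases hf : f ∈ Φ '' B
  · obtain ⟨y, hy, hyf⟩ := hf
    refine ⟨y, fun t => ?_, fun e => ?_⟩
    · have := hy t (Set.mem_univ t)
      exact abs_le.2 ⟨this.1, this.2⟩
    · exact congrFun hyf e
  · exfalso
    obtain ⟨φ, u, h1, h2⟩ := geometric_hahn_banach_closed_point hKv hKc hf
    let g : E → ℝ := fun e => φ (Pi.single e 1)
    have hφ : ∀ k : E → ℝ, φ k = ∑ e, k e * g e := by
      intro k
      have hk : k = ∑ e, k e • (Pi.single e (1 : ℝ) : E → ℝ) := by
        funext e'
        rw [Finset.sum_apply, Finset.sum_eq_single e']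
        · simp
        · intro e _ he
          simp [Pi.single_eq_of_ne' he]
        · intro hn
          exact absurd (Finset.mem_univ _) hn
      conv_lhs => rw [hk]
      rw [map_sum]
      refine Finset.sum_congr rfl fun e _ => ?_
      rw [map_smul, smul_eq_mul]
    let y : T → ℝ := fun t => if 0 ≤ ∑ e, M t e * g e then L else -L
    have hy : y ∈ B := by
      intro t _
      show (if 0 ≤ ∑ e, M t e * g e then L else -L) ∈ Set.Icc (-L) L
      split_ifs
      · exact ⟨by linarith, le_refl _⟩
      · exact ⟨le_refl _, by linarith⟩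
    have h3 := h1 (Φ y) ⟨y, hy, rfl⟩
    have h4 : φ (Φ y) = L * ∑ t, |∑ e, M t e * g e| := by
      rw [hφ, Finset.mul_sum]
      have e1 : ∀ e, Φ y e * g e = ∑ t, y t * (M t e * g e) := by
        intro e
        rw [hΦ, Finset.sum_mul]
        exact Finset.sum_congr rfl fun t _ => by ring
      simp only [e1]
      rw [Finset.sum_comm]
      refine Finset.sum_congr rfl fun t _ => ?_
      rw [← Finset.mul_sum]
      show (if 0 ≤ ∑ e, M t e * g e then L else -L) * _ = _
      split_ifs with h0
      · rw [abs_of_nonneg h0]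
      · rw [abs_of_neg (not_le.1 h0)]; ring
    have h5 := h g
    rw [hφ] at h2
    rw [h4] at h3
    linarith

end Pool.Agent.Helper14.TP
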